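import Pool.Agent.H5.SBC.Targets

/-!
Module KFG of the stable brick conjecture (MP_e14618_al): finitely many simple modules, `K₀(proj A)`
is finitely generated.
-/

namespace Pool.Agent.H17.SBC

open Dem _root_.SBC

section

variable {K A : Type} [Field K] [Ring A] [Algebra K A]

/-- every simple module which is the target of a nonzero map from `L` is in a finite list -/
theorem simple_targets (n : ℕ) : ∀ L : FMod K A, Module.finrank K L ≤ n →
    ∃ l : List (FMod K A), (∀ T ∈ l, IsSimpleModule A T) ∧
      ∀ S : FMod K A, IsSimpleModule A S → ∀ p : L →ₗ[A] S, p ≠ 0 →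
      ∃ T ∈ l, Nonempty (T ≃ₗ[A] S) := by
  induction n with
  | zero =>
    intro L hL
    refine ⟨[], by simp, fun S _ p hp => ?_⟩
    have hs : Subsingleton L := Module.finrank_zero_iff.1 (by omega : Module.finrank K L = 0)
    exact absurd (LinearMap.ext fun x => by rw [Subsingleton.elim x 0, map_zero, map_zero]) hp
  | succ n ih =>
    intro L hL
    by_cases hs : Subsingleton L
    · refine ⟨[], by simp, fun S _ p hp => ?_⟩
      exact absurd (LinearMap.ext fun x => by rw [Subsingleton.elim x 0, map_zero, map_zero]) hp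
    · have hnt : Nontrivial L := not_subsingleton_iff_nontrivial.1 hs
      have hart : IsArtinian A L := isArtinian_of_tower K inferInstance
      obtain ⟨N, hN⟩ := IsAtomic.exists_atom (Submodule A L)
      have hNs : IsSimpleModule A N := isSimpleModule_iff_isAtom.2 hN
      have hpos : 0 < Module.finrank K N := by
        rw [Module.finrank_pos_iff]
        exact Submodule.nontrivial_iff_ne_bot.2 hN.1
      have h2 : Module.finrank K (L ⧸ N) + Module.finrank K N = Module.finrank K L :=
        Submodule.finrank_quotient_add_finrank (N.restrictScalars K)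
      obtain ⟨l, hl, hl'⟩ := ih (L.quo N) (by
        change Module.finrank K (L ⧸ N) ≤ n
        omega)
      refine ⟨L.sub N :: l, ?_, fun S hS p hp => ?_⟩
      · intro T hT
        rcases List.mem_cons.1 hT with rfl | hT
        · exact hNs
        · exact hl T hT
      · by_cases h0 : p ∘ₗ N.subtype = 0
        · obtain ⟨ψ, hψ⟩ := (ses_sub L N).desc (L := S) p h0
          have hψ0 : ψ ≠ 0 := by
            rintro rfl
            rw [LinearMap.zero_comp] at hψ
            exact hp hψ.symm
          obtain ⟨T, hT, e⟩ := hl' S hS ψ hψ0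
          exact ⟨T, List.mem_cons_of_mem _ hT, e⟩
        · have hb := LinearMap.bijective_of_ne_zero h0
          exact ⟨L.sub N, List.mem_cons_self, ⟨LinearEquiv.ofBijective _ hb⟩⟩

end

section

variable (K A : Type) [Field K] [Ring A] [Algebra K A] [Module.Finite K A]

/-- there are only finitely many simple modules -/
theorem finite_simples : ∃ (m : ℕ) (T : Fin m → FMod K A), (∀ i, IsSimpleModule A (T i)) ∧
    ∀ S : FMod K A, IsSimpleModule A S → ∃ i, Nonempty (T i ≃ₗ[A] S) := by
  obtain ⟨l, hl, hl'⟩ := simple_targets (K := K) (A := A) _ { carrier := A } le_rfl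
  refine ⟨l.length, fun i => l.get i, fun i => hl _ (List.get_mem l i), fun S hS => ?_⟩
  have hnt : Nontrivial S := IsSimpleModule.nontrivial A S
  obtain ⟨s, hs⟩ := exists_ne (0 : S)
  obtain ⟨T, hT, e⟩ := hl' S hS (LinearMap.toSpanSingleton A S s) (by
    intro h
    have := LinearMap.congr_fun h (1 : A)
    simp at this
    exact hs this)
  obtain ⟨i, rfl⟩ := List.get_of_mem hT
  exact ⟨i, e⟩

theorem kfg : T_KFG K A := by
  obtain ⟨m, T, hT, hT'⟩ := finite_simples K A
  let G : Submodule ℤ (FMod K A → ℤ) := AddSubgroup.toIntSubmodule (K0 K A)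
  let ev : (FMod K A → ℤ) →ₗ[ℤ] (Fin m → ℤ) :=
    { toFun := fun x i => x (T i)
      map_add' := fun _ _ => rfl
      map_smul' := fun _ _ => rfl }
  have hinj : Function.Injective (ev ∘ₗ G.subtype) := by
    rw [injective_iff_map_eq_zero]
    rintro ⟨x, hx⟩ h
    have hx' : x ∈ K0 K A := hx
    apply Subtype.ext
    funext L
    change x L = 0
    refine K0_eq_zero hx' (fun S hS => ?_) _ L le_rfl
    obtain ⟨i, ⟨e⟩⟩ := hT' S hS
    rw [← K0_congr hx' e]
    exact congrFun h i
  have hfin : Module.Finite ℤ G := Module.Finite.of_injective (ev ∘ₗ G.subtype) hinj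
  obtain ⟨n, s, hs⟩ := Module.Finite.exists_fin (R := ℤ) (M := G)
  refine ⟨n, fun i => (s i).1, fun i => (s i).2, fun y hy => ?_⟩
  have h1 : (⟨y, hy⟩ : G) ∈ Submodule.span ℤ (Set.range s) := by
    rw [hs]
    trivial
  rw [Submodule.mem_span_range_iff_exists_fun] at h1
  obtain ⟨c, hc⟩ := h1
  refine ⟨c, fun L => ?_⟩
  have h2 := congrArg (fun z : G => z.1 L) hc
  simp only at h2
  rw [← h2]
  simp [Finset.sum_apply]

end

end Pool.Agent.H17.SBC
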