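import Pool.Agent.H5.SBC.Targets
import Pool.Agent.H17.SBC.KFG

/-!
Module IDM of the stable brick conjecture (MP_e14618_al): classes in terms of idempotents.
-/

namespace Pool.Agent.H17.SBC

open Dem _root_.SBC

section

variable {K A : Type} [Field K] [Ring A] [Algebra K A]

/-- the homomorphisms from `A e` to `L` are the elements of `e L` -/
theorem exists_proj (hA : Module.Finite K A) (e : A) (he : IsIdempotentElem e) :
    ∃ P : FMod K A, Module.Projective A P ∧ ∀ L : FMod K A, hd P L =
      Module.finrank K (LinearMap.range (Algebra.lsmul K K L e)) := by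
  let AA : FMod K A := { carrier := A }
  let I : Submodule A AA := Submodule.span A {e}
  let r : A →ₗ[A] I := (LinearMap.toSpanSingleton A A e).codRestrict I fun a => by
    rw [LinearMap.toSpanSingleton_apply]
    exact Submodule.smul_mem _ _ (Submodule.mem_span_singleton_self e)
  have hr : ∀ a : A, (r a : A) = a * e := fun a => rfl
  have hI : ∀ x : I, (x : A) * e = x := by
    rintro ⟨x, hx⟩
    obtain ⟨a, rfl⟩ := Submodule.mem_span_singleton.1 hx
    change (a * e) * e = a * e
    rw [mul_assoc, he.eq]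
  have hproj : Module.Projective A I := by
    refine Module.Projective.of_split (R := A) (M := A) (P := I) I.subtype r ?_
    refine LinearMap.ext fun x => Subtype.ext ?_
    exact hI x
  have hmem : e ∈ I := Submodule.mem_span_singleton_self e
  refine ⟨AA.sub I, hproj, fun L => ?_⟩
  unfold hd
  apply LinearEquiv.finrank_eq
  have hφ : ∀ φ : (AA.sub I) →ₗ[A] L, e • φ ⟨e, hmem⟩ = φ ⟨e, hmem⟩ := by
    intro φ
    rw [← map_smul]
    congr 1
    apply Subtype.ext
    exact he.eq
  let F : ((AA.sub I) →ₗ[A] L) →ₗ[K] LinearMap.range (Algebra.lsmul K K L e) :=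
    { toFun := fun φ => ⟨φ ⟨e, hmem⟩, ⟨φ ⟨e, hmem⟩, hφ φ⟩⟩
      map_add' := fun _ _ => rfl
      map_smul' := fun _ _ => rfl }
  refine LinearEquiv.ofBijective F ⟨?_, ?_⟩
  · intro φ ψ h
    have h1 : φ ⟨e, hmem⟩ = ψ ⟨e, hmem⟩ := congrArg Subtype.val h
    refine LinearMap.ext fun x => ?_
    obtain ⟨a, ha⟩ := Submodule.mem_span_singleton.1 x.2
    have h2 : x = a • (⟨e, hmem⟩ : I) := Subtype.ext ha.symm
    rw [h2]
    have h3 : φ (a • (⟨e, hmem⟩ : I)) = a • φ ⟨e, hmem⟩ := map_smul φ a _
    have h4 : ψ (a • (⟨e, hmem⟩ : I)) = a • ψ ⟨e, hmem⟩ := map_smul ψ a _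
    rw [h3, h4, h1]
  · rintro ⟨_, ⟨y, rfl⟩⟩
    refine ⟨(LinearMap.toSpanSingleton A L y) ∘ₗ I.subtype, ?_⟩
    apply Subtype.ext
    rfl

/-- for every simple module `S` there is an idempotent which kills all other simple modules -/
theorem exists_idem (hA : Module.Finite K A) (S : FMod K A) (hS : IsSimpleModule A S) :
    ∃ e : A, IsIdempotentElem e ∧ (∃ s : S, e • s ≠ 0) ∧
      ∀ S' : FMod K A, IsSimpleModule A S' → IsEmpty (S ≃ₗ[A] S') → ∀ s : S', e • s = 0 := by
  have hart : IsArtinian A A := isArtinian_of_tower K inferInstance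
  -- a minimal left ideal among those not killing `S`
  obtain ⟨I, hI, hmin⟩ := IsArtinian.set_has_minimal
    {I : Submodule A A | ∃ a ∈ I, ∃ s : S, a • s ≠ 0} (by
      have hnt : Nontrivial S := IsSimpleModule.nontrivial A S
      obtain ⟨s, hs⟩ := exists_ne (0 : S)
      exact ⟨⊤, 1, trivial, s, by rwa [one_smul]⟩)
  obtain ⟨a, ha, s, has⟩ := hI
  have hmin' : ∀ I' : Submodule A A, I' ≤ I → (∃ a ∈ I', ∃ s : S, a • s ≠ 0) → I' = I := by
    intro I' h1 h2
    by_contra h3
    exact hmin I' h2 (lt_of_le_of_ne h1 h3)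
  -- the map `I → S`, `x ↦ x s`
  let p : I →ₗ[A] S := (LinearMap.toSpanSingleton A S s) ∘ₗ I.subtype
  have hp : ∀ x : I, p x = (x : A) • s := fun x => rfl
  have hp0 : p ≠ 0 := by
    intro h
    exact has (LinearMap.congr_fun h ⟨a, ha⟩)
  have hpsurj : Function.Surjective p := LinearMap.surjective_of_ne_zero hp0
  have hs0 : s ≠ 0 := by
    rintro rfl
    exact has (smul_zero a)
  obtain ⟨e, he⟩ := hpsurj s
  rw [hp] at he
  -- right multiplication by `e`
  let R : I →ₗ[A] I := ((LinearMap.toSpanSingleton A A (e : A)) ∘ₗ I.subtype).codRestrict I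
    fun x => I.smul_mem _ e.2
  have hR : ∀ x : I, ((R x : I) : A) = x * e := fun x => rfl
  have hRsurj : Function.Surjective R := by
    have h1 : Submodule.map I.subtype (LinearMap.range R) = I := by
      apply hmin'
      · exact Submodule.map_subtype_le I _
      · refine ⟨(R e : A), ⟨R e, ⟨e, rfl⟩, rfl⟩, s, ?_⟩
        rw [hR, mul_smul, he, he]
        exact hs0
    rw [← LinearMap.range_eq_top]
    apply Submodule.map_injective_of_injective I.injective_subtype
    rw [h1, Submodule.map_top, Submodule.range_subtype]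
  have hRinj : Function.Injective R := by
    have h2 : Function.Surjective (R.restrictScalars K) := hRsurj
    exact (LinearMap.injective_iff_surjective (f := R.restrictScalars K)).2 h2
  obtain ⟨f, hf⟩ := hRsurj e
  have hf' : (f : A) * e = e := congrArg Subtype.val hf
  have hfs : (f : A) • s = s := by
    have h1 : ((f : A) * e) • s = (e : A) • s := by rw [hf']
    rw [mul_smul, he] at h1
    exact h1
  have hidem : IsIdempotentElem (f : A) := by
    have h1 : (f : A) • f = f := by
      apply hRinj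
      apply Subtype.ext
      change ((f : A) * f) * e = f * e
      rw [mul_assoc, hf', hf']
    exact congrArg Subtype.val h1
  refine ⟨f, hidem, ⟨s, by rw [hfs]; exact hs0⟩, fun S' hS' hiso s' => ?_⟩
  by_contra hne
  let q : I →ₗ[A] S' := (LinearMap.toSpanSingleton A S' s') ∘ₗ I.subtype
  have hq0 : q ≠ 0 := by
    intro h
    exact hne (LinearMap.congr_fun h f)
  have hqsurj : Function.Surjective q := LinearMap.surjective_of_ne_zero hq0
  have hker : LinearMap.ker q ≤ LinearMap.ker p := by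
    intro x hx
    by_contra hx'
    have h1 : Submodule.map I.subtype (LinearMap.ker q) = I := by
      apply hmin'
      · exact Submodule.map_subtype_le I _
      · exact ⟨x, ⟨x, hx, rfl⟩, s, hx'⟩
    have h2 : f ∈ LinearMap.ker q := by
      have h3 : (f : A) ∈ Submodule.map I.subtype (LinearMap.ker q) := by
        rw [h1]
        exact f.2
      obtain ⟨g, hg, hgf⟩ := h3
      have h4 : g = f := Subtype.ext hgf
      rwa [← h4]
    exact hne h2
  -- the induced map `S' → S`
  let e1 := q.quotKerEquivOfSurjective hqsurj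
  let ψ : S' →ₗ[A] S := ((LinearMap.ker q).liftQ p hker) ∘ₗ e1.symm.toLinearMap
  have hψ : ∀ x : I, ψ (q x) = p x := by
    intro x
    have h1 : e1.symm (q x) = (LinearMap.ker q).mkQ x := by
      rw [LinearEquiv.symm_apply_eq]
      rfl
    change ((LinearMap.ker q).liftQ p hker) (e1.symm (q x)) = p x
    rw [h1]
    rfl
  have hψ0 : ψ ≠ 0 := by
    intro h
    apply hp0
    refine LinearMap.ext fun x => ?_
    rw [← hψ, h]
    rfl
  exact hiso.false (LinearEquiv.ofBijective ψ (LinearMap.bijective_of_ne_zero hψ0)).symm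

end

section

variable (K A : Type) [Field K] [Ring A] [Algebra K A] [Module.Finite K A]

theorem idm : T_IDM K A := by
  intro x hx
  obtain ⟨m, T, hT, hT'⟩ := finite_simples K A
  choose e he hne hz using fun i => exists_idem (K := K) (A := A) inferInstance (T i) (hT i)
  choose P hP hPd using fun i => exists_proj (K := K) (A := A) inferInstance (e i) (he i)
  classical
  let d : Fin m → ℕ := fun i => hd (P i) (T i)
  have hd0 : ∀ i, 0 < d i := by
    intro i
    change 0 < hd (P i) (T i)
    rw [hPd, Module.finrank_pos_iff]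
    obtain ⟨s, hs⟩ := hne i
    exact ⟨⟨⟨e i • s, ⟨s, rfl⟩⟩, 0, fun h => hs (congrArg Subtype.val h)⟩⟩
  let c : Fin m → ℤ := fun j => if ∃ i < j, Nonempty (T i ≃ₗ[A] T j) then 0 else
    x (T j) * ∏ k ∈ Finset.univ.erase j, (d k : ℤ)
  refine ⟨∏ i, d i, m, e, c, Finset.prod_pos fun i _ => hd0 i, he, fun L => ?_⟩
  let y : FMod K A → ℤ := ((∏ i, d i : ℕ) : ℤ) • x - ∑ j, c j • (fun L => (hd (P j) L : ℤ))
  have hy : y ∈ K0 K A := by
    refine (K0 K A).sub_mem ((K0 K A).zsmul_mem hx _) ((K0 K A).sum_mem fun j _ => ?_)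
    exact (K0 K A).zsmul_mem (AddSubgroup.subset_closure ⟨P j, hP j, fun _ => rfl⟩) _
  have hyv : ∀ L, y L = ((∏ i, d i : ℕ) : ℤ) * x L - ∑ j, c j * (hd (P j) L : ℤ) := by
    intro L
    simp [y, Finset.sum_apply]
  have hS : ∀ S : FMod K A, IsSimpleModule A S → y S = 0 := by
    intro S hS
    have hex : ∃ k : ℕ, ∃ hk : k < m, Nonempty (T ⟨k, hk⟩ ≃ₗ[A] S) := by
      obtain ⟨i, hi⟩ := hT' S hS
      exact ⟨i.1, i.2, hi⟩
    obtain ⟨hj, ⟨ε⟩⟩ := Nat.find_spec hex
    have hjm : ∀ k < Nat.find hex, ¬ ∃ hk : k < m, Nonempty (T ⟨k, hk⟩ ≃ₗ[A] S) :=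
      fun k hk => Nat.find_min hex hk
    generalize Nat.find hex = j0 at hj ε hjm
    obtain ⟨j, rfl⟩ : ∃ j : Fin m, j = ⟨j0, hj⟩ := ⟨_, rfl⟩
    rw [hyv, Finset.sum_eq_single (⟨j0, hj⟩ : Fin m)]
    · have h1 : c ⟨j0, hj⟩ = x (T ⟨j0, hj⟩) * ∏ k ∈ Finset.univ.erase (⟨j0, hj⟩ : Fin m),
          (d k : ℤ) := by
        simp only [c]
        rw [if_neg]
        rintro ⟨i, hi, ⟨ε'⟩⟩
        exact hjm i.1 hi ⟨i.2, ⟨ε'.trans ε⟩⟩
      have h2 : (hd (P ⟨j0, hj⟩) S : ℤ) = d ⟨j0, hj⟩ := by
        rw [← hd_congr_right (P ⟨j0, hj⟩) ε]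
      rw [h1, h2, ← K0_congr hx ε]
      have h3 := Finset.prod_erase_mul Finset.univ (fun k : Fin m => (d k : ℤ))
        (Finset.mem_univ (⟨j0, hj⟩ : Fin m))
      push_cast
      rw [← h3]
      ring
    · intro k _ hk
      by_cases hiso : Nonempty (T k ≃ₗ[A] S)
      · obtain ⟨ε'⟩ := hiso
        have h1 : c k = 0 := by
          simp only [c]
          rw [if_pos]
          refine ⟨⟨j0, hj⟩, ?_, ⟨ε.trans ε'.symm⟩⟩
          rcases lt_trichotomy (⟨j0, hj⟩ : Fin m) k with h | h | h
          · exact h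
          · exact absurd h.symm hk
          · exact absurd ⟨k.2, ⟨ε'⟩⟩ (hjm k.1 h)
        rw [h1, zero_mul]
      · have h1 : hd (P k) S = 0 := by
          rw [hPd]
          have h2 : ∀ s : S, e k • s = 0 := hz k S hS (not_nonempty_iff.1 hiso)
          have h3 : Subsingleton (LinearMap.range (Algebra.lsmul K K S (e k))) := by
            refine ⟨?_⟩
            rintro ⟨_, ⟨a, rfl⟩⟩ ⟨_, ⟨b, rfl⟩⟩
            apply Subtype.ext
            change e k • a = e k • b
            rw [h2, h2]
          exact Module.finrank_zero_of_subsingleton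
        rw [h1]
        simp
    · intro h
      exact absurd (Finset.mem_univ _) h
  have hL := K0_eq_zero hy hS _ L le_rfl
  rw [hyv] at hL
  rw [sub_eq_zero.1 hL]
  refine Finset.sum_congr rfl fun j _ => ?_
  rw [hPd]

end

end Pool.Agent.H17.SBC
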