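import Pool.Agent.H5.SBC.Targets

/-!
Module NIL of the stable brick conjecture (MP_e14618_al), (6.2).
-/

namespace Pool.Agent.H17.SBC

open Dem _root_.SBC

section

variable {K A : Type} [Field K] [Ring A] [Algebra K A]

/-- a map which kills all images of `ga.H` factors through the quotient by the trace -/
theorem zero_of_tr (ga : Cpx K A) (L Z : FMod K A) (h : Hom0 (L.quo (tr ga L)) Z)
    (τ : L →ₗ[A] Z) (hτ : ∀ α : ga.H →ₗ[A] L, τ ∘ₗ α = 0) : τ = 0 := by
  have hk : tr ga L ≤ LinearMap.ker τ := by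
    apply iSup_le
    rintro ⟨φ, hφ⟩
    have hφ' : LinearMap.range ga.d ≤ LinearMap.ker φ := by
      rintro _ ⟨x, rfl⟩
      exact LinearMap.congr_fun hφ x
    rintro _ ⟨x, rfl⟩
    exact LinearMap.congr_fun (hτ ((LinearMap.range ga.d).liftQ φ hφ'))
      ((LinearMap.range ga.d).mkQ x)
  have h1 := h ((tr ga L).liftQ τ hk)
  refine LinearMap.ext fun x => ?_
  exact LinearMap.congr_fun h1 ((tr ga L).mkQ x)

/-- the nilpotence of all multiples puts an element into the Jacobson radical -/
theorem mem_jac {R : Type} [Ring R] (x : R) (h : ∀ y : R, IsNilpotent (y * x)) :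
    x ∈ Ring.jacobson R := by
  rw [← Ideal.jacobson_bot, Ideal.mem_jacobson_iff]
  intro y
  obtain ⟨u, hu⟩ := (h y).isUnit_add_one
  refine ⟨((u⁻¹ : Rˣ) : R), ?_⟩
  rw [Ideal.mem_bot]
  have h1 : ((u⁻¹ : Rˣ) : R) * (y * x + 1) = 1 := by
    rw [← hu, Units.inv_mul]
  rw [mul_add, mul_one, ← mul_assoc] at h1
  rw [h1, sub_self]

end

section

variable (K A : Type) [Field K] [Ring A] [Algebra K A]

theorem nil : T_NIL K A := by
  intro ga gb Z h1 h2 h3 σ
  by_contra hσ
  have hfin : Module.Finite K (Module.End A ga.H) := by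
    have : IsNoetherian K (Module.End K ga.H) := inferInstance
    let F : Module.End A ga.H →ₗ[K] Module.End K ga.H :=
      { toFun := fun φ => φ.restrictScalars K
        map_add' := fun _ _ => rfl
        map_smul' := fun _ _ => rfl }
    exact Module.Finite.of_injective F fun a b hab => by
      refine LinearMap.ext fun x => ?_
      exact LinearMap.congr_fun hab x
  have hart : IsArtinianRing (Module.End A ga.H) := isArtinian_of_tower K inferInstance
  obtain ⟨n, hn⟩ := IsSemiprimaryRing.isNilpotent (R := Module.End A ga.H)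
  classical
  have hP : ∃ k : ℕ, ∀ φ ∈ (Ring.jacobson (Module.End A ga.H)) ^ k, σ ∘ₗ φ = 0 := by
    refine ⟨n, fun φ hφ => ?_⟩
    rw [hn] at hφ
    have : φ = 0 := hφ
    rw [this]
    exact LinearMap.comp_zero σ
  have hk := Nat.find_spec hP
  have hmin : ∀ m < Nat.find hP, ¬ _ := fun m hm => Nat.find_min hP hm
  generalize Nat.find hP = k at hk hmin
  have hk0 : k ≠ 0 := by
    rintro rfl
    apply hσ
    have := hk 1 (by rw [Submodule.pow_zero, Ideal.one_eq_top]; trivial)
    exact this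
  obtain ⟨i, rfl⟩ := Nat.exists_eq_succ_of_ne_zero hk0
  apply hmin i (Nat.lt_succ_self i)
  intro φ hφ
  have h4 : ∀ (α : ga.H →ₗ[A] gb.H) (β : gb.H →ₗ[A] ga.H), (σ ∘ₗ φ ∘ₗ β) ∘ₗ α = 0 := by
    intro α β
    have h5 : (β ∘ₗ α : Module.End A ga.H) ∈ Ring.jacobson (Module.End A ga.H) := by
      apply mem_jac
      intro y
      exact h3 α (y ∘ₗ β)
    have h6 : φ * (β ∘ₗ α : Module.End A ga.H) ∈
        (Ring.jacobson (Module.End A ga.H)) ^ (i + 1) := by
      rw [Submodule.pow_succ]
      exact Submodule.mul_mem_mul hφ h5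
    exact hk _ h6
  refine zero_of_tr gb ga.H Z h1 _ fun β => ?_
  exact zero_of_tr ga gb.H Z h2 _ fun α => h4 α β

end

end Pool.Agent.H17.SBC
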